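import Pool.Agent.P.MP_75a63e_an.Lift

/-! A natural Hamiltonian system on the 2-sphere with three independent integrals polynomial in the
momenta has a constant potential. The definitions are in `Pool/Agent/P/MP_75a63e_an/Defs.lean`. -/

open scoped Manifold ContDiff
open Pool.Agent.P.MP_75a63e_an

theorem Pool.Agent.Results.MP_75a63e_an.ConstPotential.result
    (g : RMetric E2 S2) (U : S2 → ℝ) (hU : ContMDiff (𝓡 2) 𝓘(ℝ, ℝ) ∞ U)
    (h : Superintegrable (hamiltonian g U)) : ∃ a, ∀ x, U x = a :=
  potential_const g U hU h
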